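import Pool.Agent.helper47.MSW.SpecA
import Pool.Agent.helper47.MSW.SpecD

/-!
# Project msw (MP_a87880_co), row WH2: large boxes
-/

set_option autoImplicit false

namespace Pool.Agent.MSW

open Equiv Finset Function MeasureTheory Pool.Agent.helper48.PP
open Pool.Agent.DSW (Pr Has GP wt)
open scoped ENNReal Classical

noncomputable section

/-- the real inequality -/
theorem WH2_real (k B H : ℕ) (θ : ℝ) (hH : 1 ≤ H) (h0 : 0 ≤ θ) :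
    (((H : ℝ) + 1) ^ 2)⁻¹ * (1 / 2) ^ (B * k) * (θ / (H : ℝ) ^ 2) ^ k *
      ((2 * ((H : ℝ) + 1)) ^ (k + 1) * (2 * ((H : ℝ) + 1)) ^ (k + 1)) ≤
      4 * (16 * θ / 2 ^ B) ^ k := by
  have hH' : (1 : ℝ) ≤ H := by exact_mod_cast hH
  have e1 : (2 * ((H : ℝ) + 1)) ^ (k + 1) * (2 * ((H : ℝ) + 1)) ^ (k + 1) =
      (4 * ((H : ℝ) + 1) ^ 2) * (4 * ((H : ℝ) + 1) ^ 2) ^ k := by
    rw [← mul_pow, pow_succ]
    have : 2 * ((H : ℝ) + 1) * (2 * ((H : ℝ) + 1)) = 4 * ((H : ℝ) + 1) ^ 2 := by ring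
    rw [this]
    ring
  have e2 : ((1 : ℝ) / 2) ^ (B * k) = ((1 / 2) ^ B) ^ k := by rw [pow_mul]
  rw [e1, e2]
  have e3 : (((H : ℝ) + 1) ^ 2)⁻¹ * ((1 / 2) ^ B) ^ k * (θ / (H : ℝ) ^ 2) ^ k *
      ((4 * ((H : ℝ) + 1) ^ 2) * (4 * ((H : ℝ) + 1) ^ 2) ^ k) =
      4 * ((1 / 2) ^ B * (θ / (H : ℝ) ^ 2) * (4 * ((H : ℝ) + 1) ^ 2)) ^ k := by
    have hne : ((H : ℝ) + 1) ^ 2 ≠ 0 := by positivity
    rw [mul_pow ((1 / 2 : ℝ) ^ B * (θ / (H : ℝ) ^ 2)) (4 * ((H : ℝ) + 1) ^ 2) k,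
      mul_pow ((1 / 2 : ℝ) ^ B) (θ / (H : ℝ) ^ 2) k]
    generalize ((1 / 2 : ℝ) ^ B) ^ k = X
    generalize (θ / (H : ℝ) ^ 2) ^ k = Y
    generalize (4 * ((H : ℝ) + 1) ^ 2) ^ k = Z
    calc (((H : ℝ) + 1) ^ 2)⁻¹ * X * Y * ((4 * ((H : ℝ) + 1) ^ 2) * Z) =
        ((((H : ℝ) + 1) ^ 2)⁻¹ * ((H : ℝ) + 1) ^ 2) * (4 * (X * Y * Z)) := by ring
      _ = 4 * (X * Y * Z) := by rw [inv_mul_cancel₀ hne, one_mul]
  rw [e3]
  refine mul_le_mul_of_nonneg_left (pow_le_pow_left₀ (by positivity) ?_ k) (by norm_num)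
  have e4 : ((H : ℝ) + 1) ^ 2 ≤ 4 * (H : ℝ) ^ 2 := by nlinarith
  have hH2 : (0 : ℝ) < (H : ℝ) ^ 2 := by positivity
  calc (1 / 2 : ℝ) ^ B * (θ / (H : ℝ) ^ 2) * (4 * ((H : ℝ) + 1) ^ 2) ≤
      (1 / 2 : ℝ) ^ B * (θ / (H : ℝ) ^ 2) * (4 * (4 * (H : ℝ) ^ 2)) :=
        mul_le_mul_of_nonneg_left (by linarith) (by positivity)
    _ = 16 * θ / 2 ^ B := by
        rw [one_div, inv_pow]
        field_simp
        ring

theorem WH2 (hCNT : CNT_stmt) (hGEM : GEM_stmt) (hGEW : GEW_stmt) : WH2_stmt := by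
  intro k B H σ θ hH h0 h1
  obtain ⟨⟨hta1, -⟩, hwt, ⟨-, hhalf⟩, -⟩ := hGEW H hH
  have hgem := (hGEM H k hH).2
  have hH' : (1 : ℝ) ≤ H := by exact_mod_cast hH
  obtain ⟨d, hd⟩ : ∃ d : ℝ, d = den θ H := ⟨_, rfl⟩
  have hd0 : 0 ≤ d := by
    rw [hd, den]
    positivity
  have hd1 : d ≤ 1 := by
    rw [hd, den, div_le_one (by positivity)]
    have : (1 : ℝ) ≤ (H : ℝ) ^ 2 := one_le_pow₀ hH'
    linarith
  rw [← hd]
  obtain ⟨c, hc⟩ : ∃ c : ℝ≥0∞, c = ((H : ℝ≥0∞) + 1) ^ 2 := ⟨_, rfl⟩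
  have hcr : c = ENNReal.ofReal (((H : ℝ) + 1) ^ 2) := by
    rw [hc, ENNReal.ofReal_pow (by positivity), ENNReal.ofReal_add (by positivity) (by norm_num),
      ENNReal.ofReal_natCast, ENNReal.ofReal_one]
  have hc0 : c ≠ 0 := by
    rw [hcr]
    exact (ENNReal.ofReal_pos.mpr (by positivity)).ne'
  have hcT : c ≠ ⊤ := by
    rw [hcr]
    exact ENNReal.ofReal_ne_top
  obtain ⟨f, hf⟩ : ∃ f : ℕ → ℝ≥0∞, f = fun j => ta H ^ j * ((j.choose k : ℕ) : ℝ≥0∞) := ⟨_, rfl⟩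
  obtain ⟨K, hK⟩ : ∃ K : ℝ≥0∞, K = c⁻¹ * ENNReal.ofReal (1 / 2) ^ (B * k) * ENNReal.ofReal d ^ k :=
    ⟨_, rfl⟩
  have hterm : ∀ w : Pt, (if 2 * B * k * H < nm w then
      wt H w.1 * wt H w.2 * Pm d {ω | HP σ ω 0 w} else 0) ≤ K * (f w.1 * f w.2) := by
    intro w
    by_cases hw : 2 * B * k * H < nm w
    · rw [if_pos hw]
      have a1 : wt H w.1 * wt H w.2 = ta H ^ (2 * nm w) * c⁻¹ := by
        rw [← hwt w, ← hc, mul_assoc, ENNReal.mul_inv_cancel hc0 hcT, mul_one]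
      have a2 : ta H ^ (2 * nm w) ≤ ta H ^ nm w * ENNReal.ofReal (1 / 2) ^ (B * k) := by
        rw [two_mul, pow_add]
        refine mul_le_mul' le_rfl ?_
        calc ta H ^ nm w ≤ ta H ^ (2 * B * k * H) := pow_le_pow_right_of_le_one' hta1 hw.le
          _ = (ta H ^ (2 * H)) ^ (B * k) := by
              rw [← pow_mul]
              congr 1
              ring
          _ ≤ ENNReal.ofReal (1 / 2) ^ (B * k) := pow_le_pow_left' hhalf _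
      have a3 := hCNT k σ w d hd0 hd1
      calc wt H w.1 * wt H w.2 * Pm d {ω | HP σ ω 0 w} ≤
          (ta H ^ nm w * ENNReal.ofReal (1 / 2) ^ (B * k)) * c⁻¹ *
            (ENNReal.ofReal d ^ k * (w.1.choose k : ℝ≥0∞) * (w.2.choose k : ℝ≥0∞)) := by
            rw [a1]
            exact mul_le_mul' (mul_le_mul' a2 le_rfl) a3
        _ = K * (f w.1 * f w.2) := by
            rw [hK, hf, nm, pow_add]
            ring
    · rw [if_neg hw]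
      exact zero_le
  have hsum : ∑' w : Pt, K * (f w.1 * f w.2) = K * ((∑' j, f j) * (∑' j, f j)) := by
    rw [ENNReal.tsum_mul_left]
    congr 1
    rw [ENNReal.tsum_prod (f := fun a b => f a * f b)]
    simp only [ENNReal.tsum_mul_left, ENNReal.tsum_mul_right]
  have hgr : (2 * ((H : ℝ≥0∞) + 1)) ^ (k + 1) = ENNReal.ofReal ((2 * ((H : ℝ) + 1)) ^ (k + 1)) := by
    rw [ENNReal.ofReal_pow (by positivity), ENNReal.ofReal_mul (by norm_num),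
      ENNReal.ofReal_add (by positivity) (by norm_num), ENNReal.ofReal_natCast, ENNReal.ofReal_one]
    norm_num
  have hF : ∑' j, f j ≤ ENNReal.ofReal ((2 * ((H : ℝ) + 1)) ^ (k + 1)) := by
    rw [← hgr, hf]
    exact hgem
  have hKr : K = ENNReal.ofReal ((((H : ℝ) + 1) ^ 2)⁻¹ * (1 / 2) ^ (B * k) * (θ / (H : ℝ) ^ 2) ^ k) := by
    rw [hK, hcr, ENNReal.ofReal_mul (by positivity), ENNReal.ofReal_mul (by positivity),
      ENNReal.ofReal_inv_of_pos (by positivity), ← ENNReal.ofReal_pow (by norm_num),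
      ← ENNReal.ofReal_pow (by positivity), hd]
    rfl
  calc (∑' w : Pt, if 2 * B * k * H < nm w then
      wt H w.1 * wt H w.2 * Pm d {ω | HP σ ω 0 w} else 0) ≤ ∑' w : Pt, K * (f w.1 * f w.2) :=
        ENNReal.tsum_le_tsum hterm
    _ = K * ((∑' j, f j) * (∑' j, f j)) := hsum
    _ ≤ ENNReal.ofReal ((((H : ℝ) + 1) ^ 2)⁻¹ * (1 / 2) ^ (B * k) * (θ / (H : ℝ) ^ 2) ^ k) *
        (ENNReal.ofReal ((2 * ((H : ℝ) + 1)) ^ (k + 1)) *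
          ENNReal.ofReal ((2 * ((H : ℝ) + 1)) ^ (k + 1))) := by
        rw [hKr]
        exact mul_le_mul' le_rfl (mul_le_mul' hF hF)
    _ = ENNReal.ofReal ((((H : ℝ) + 1) ^ 2)⁻¹ * (1 / 2) ^ (B * k) * (θ / (H : ℝ) ^ 2) ^ k *
        ((2 * ((H : ℝ) + 1)) ^ (k + 1) * (2 * ((H : ℝ) + 1)) ^ (k + 1))) := by
        rw [← ENNReal.ofReal_mul (by positivity), ← ENNReal.ofReal_mul (by positivity)]
    _ ≤ ENNReal.ofReal (4 * (16 * θ / 2 ^ B) ^ k) :=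
        ENNReal.ofReal_le_ofReal (WH2_real k B H θ hH h0)

end

end Pool.Agent.MSW
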