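import Pool.Agent.helper47.MSW.SpecA
import Pool.Agent.helper47.MSW.SpecC

/-!
# Project msw (MP_a87880_co), row ZPR
-/

set_option autoImplicit false

namespace Pool.Agent.MSW

open Equiv Finset Function MeasureTheory Pool.Agent.helper48.PP
open Pool.Agent.DSW (Pr Has GP wt)
open scoped ENNReal Classical

noncomputable section

/-- the three boxes -/
theorem ZPR_disj (p q w : Pt) (h1 : p ≤ q) (h2 : q ≤ w) :
    Disjoint (box 0 p) (box p q) ∧ Disjoint (box 0 p ∪ box p q) (box q w) := by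
  constructor
  · rw [Finset.disjoint_left]
    intro c hc hc'
    rw [mem_box] at hc hc'
    have := hc.2.1
    have := hc'.1.1
    omega
  · rw [Finset.disjoint_left]
    intro c hc hc'
    rw [Finset.mem_union, mem_box, mem_box] at hc
    rw [mem_box] at hc'
    have a1 := hc'.1.1
    have a2 : p.1 ≤ q.1 := h1.1
    rcases hc with hc | hc
    · have := hc.2.1
      omega
    · have := hc.2.1
      omega

theorem ZPR (hIND : IND_stmt) (hHLA : HLA_stmt) (hHMN : HMN_stmt) (hSPT : SPT_stmt)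
    (hTRL : TRL_stmt) (hRFB : RFB_stmt) (hTSM : TSM_stmt) : ZPR_stmt := by
  intro θ H X B Y h0 h1 hH hY
  obtain ⟨d, hd⟩ : ∃ d : ℝ, d = den θ H := ⟨_, rfl⟩
  have hH1 : (1 : ℝ) ≤ (H : ℝ) ^ 2 := by
    have : (1 : ℝ) ≤ H := by exact_mod_cast hH
    exact one_le_pow₀ this
  have hd0 : 0 ≤ d := by
    rw [hd, den]
    positivity
  have hd1 : d ≤ 1 := by
    rw [hd, den, div_le_one (by linarith)]
    linarith
  rw [← hd]
  obtain ⟨hA1, -, -, hA4, -, -, -⟩ := hHLA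
  obtain ⟨-, -, hM3, -, hM5, -, hM7, -⟩ := hHMN
  have hkey : ∀ w : Pt, Pm d {ω | HL (X ++ B ++ Y) ω 0 w} ≤
      ∑' pq : Pt × Pt, if pq.1 ≤ pq.2 ∧ pq.2 ≤ w then
        Pm d {ω | mnU X ω pq.1} * Pm d {ω | HL B ω 0 (pq.2 - pq.1)} *
          Pm d {ω | mnU Y.reverse ω (w - pq.2)} else 0 := by
    intro w
    have hsub : {ω | HL (X ++ B ++ Y) ω 0 w} ⊆ ⋃ pq : Pt × Pt,
        if pq.1 ≤ pq.2 ∧ pq.2 ≤ w then
          ({ω | mnU X ω pq.1} ∩ {ω | HL B ω pq.1 pq.2}) ∩ {ω | mxV Y ω w pq.2} else ∅ := by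
      intro ω hω
      obtain ⟨p, q, h2, h3, h4⟩ := (hSPT.1 X B Y ω w).mp hω
      rw [Set.mem_iUnion]
      refine ⟨(p, q), ?_⟩
      rw [if_pos ⟨hA1 B ω p q h4, hM5 Y ω w q h3⟩]
      exact ⟨⟨h2, h4⟩, h3⟩
    refine (measure_mono hsub).trans ((measure_iUnion_le _).trans ?_)
    apply ENNReal.tsum_le_tsum
    rintro ⟨p, q⟩
    simp only
    by_cases hpq : p ≤ q ∧ q ≤ w
    · rw [if_pos hpq, if_pos hpq]
      obtain ⟨hdis1, hdis2⟩ := ZPR_disj p q w hpq.1 hpq.2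
      rw [hIND d (box 0 p ∪ box p q) (box q w) _ _ hd0 hd1 ((hM3 X p).inter (hA4 B p q))
        (hM7 Y w q) hdis2,
        hIND d (box 0 p) (box p q) _ _ hd0 hd1 (hM3 X p) (hA4 B p q) hdis1]
      have e1 : Pm d {ω | HL B ω p q} = Pm d {ω | HL B ω 0 (q - p)} := by
        have := hTRL.2 B d p (q - p) hd0 hd1
        rw [add_tsub_cancel_of_le hpq.1] at this
        exact this
      have e2 : Pm d {ω | mxV Y ω w q} = Pm d {ω | mnU Y.reverse ω (w - q)} := by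
        have := hRFB Y hY d hd0 hd1 w q q hpq.2 hpq.2
        simp only [and_self] at this
        exact this
      rw [e1, e2]
    · rw [if_neg hpq, if_neg hpq, measure_empty]
  have hT := hTSM H (fun p => Pm d {ω | mnU X ω p}) (fun s => Pm d {ω | HL B ω 0 s})
    (fun t => Pm d {ω | mnU Y.reverse ω t}) hH
  calc Z H d (X ++ B ++ Y) = ∑' w : Pt, wt H w.1 * wt H w.2 * Pm d {ω | HL (X ++ B ++ Y) ω 0 w} := rfl
    _ ≤ ∑' w : Pt, wt H w.1 * wt H w.2 * (∑' pq : Pt × Pt, if pq.1 ≤ pq.2 ∧ pq.2 ≤ w then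
        Pm d {ω | mnU X ω pq.1} * Pm d {ω | HL B ω 0 (pq.2 - pq.1)} *
          Pm d {ω | mnU Y.reverse ω (w - pq.2)} else 0) :=
        ENNReal.tsum_le_tsum fun w => mul_le_mul_right (hkey w) _
    _ = A1 H d X * Z H d B * A1 H d Y.reverse := hT

end

end Pool.Agent.MSW
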